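import Pool.Agent.H94.EGC.S1

/-!
# EGC, module MOM
-/

set_option autoImplicit false

namespace Pool.EGC

open MvPolynomial Pool.EGH

theorem t_mom : MOMStmt := by
  classical
  intro m c d x
  refine ⟨?_, ?_⟩
  · unfold Mo
    rw [Finset.mem_filter, Finset.mem_piAntidiag]
    simp [Cp]
  · intro A y
    unfold up
    rw [Finset.mem_filter]

end Pool.EGC
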