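import Pool.Agent.H94.EGC.S1

/-!
# EGC, module STP
-/

set_option autoImplicit false

namespace Pool.EGC

open MvPolynomial Pool.EGH

theorem t_stp (hRZC : RZCStmt) (hSNC : SNCStmt) (hHFS : HFSStmt) (hMON : MONStmt)
    (hSGE : SGEStmt) : STPStmt := by
  intro K _ N m r I l hr hI hl hRz
  choose A hA1 hA2 hA3 using hRz
  have hc : (Fin.snoc (cp r m) false : Fin (m + 1) → Bool) = cp r (m + 1) :=
    (hSNC m (cp r m)).2.2.2 r hr
  have hAn : An (cp r (m + 1)) := by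
    intro i j hij hj
    simp only [cp, decide_eq_true_eq] at hj ⊢
    exact lt_of_le_of_lt (Fin.val_fin_le.mpr hij) hj
  obtain ⟨hF1, hF2⟩ := hHFS K N I l hI hl
  have hmono : ∀ j d, A j d ⊆ A (j + 1) d := by
    intro j d
    refine (hSGE m (cp r m) d).2 _ _ (hA1 j d) (hA1 (j + 1) d) ?_
    have h1 := hA3 j d
    have h2 := hA3 (j + 1) d
    have h3 := (hMON K N _ _ d (hF1 j).2.2).1
    omega
  obtain ⟨B, hB1, hB2, hB3⟩ := (hSNC m (cp r m)).2.2.1 A (fun j d => (hA1 j d).1) hA2 hmono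
  rw [hc] at hB1 hB2
  refine hRZC K N (m + 1) I (cp r (m + 1)) hAn ⟨B, hB1, hB2, ?_⟩
  intro d
  rw [hF2 d, hB3 d, ← hc, (hSNC m (cp r m)).2.1 d, ← Finset.sum_add_distrib]
  exact Finset.sum_congr rfl fun j _ => hA3 j (d - j)

end Pool.EGC
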