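import Pool.Agent.H94.EGC.S1

/-!
# EGC, module TOP
-/

set_option autoImplicit false

namespace Pool.EGC

open MvPolynomial Pool.EGH

theorem t_top (hLXO : LXOStmt) : TOPStmt := by
  classical
  intro m c d
  have h1 : ∀ x ∈ Mo c d, ∀ y ∈ Mo c d, lx x y → rk c d x < rk c d y := by
    intro x hx y _ hxy
    unfold rk
    refine Finset.card_lt_card ⟨?_, ?_⟩
    · intro z hz
      rw [Finset.mem_filter] at hz ⊢
      exact ⟨hz.1, (hLXO m z x y).2.1 hz.2 hxy⟩
    · intro h
      have h2 := h (Finset.mem_filter.mpr ⟨hx, hxy⟩)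
      rw [Finset.mem_filter] at h2
      exact (hLXO m x x x).1 h2.2
  refine ⟨h1, ?_⟩
  intro A B hA hB hcard hlt hne
  have hc : (A \ B).card = (B \ A).card := Finset.card_sdiff_comm hcard
  have hne' : (A \ B).Nonempty := by
    rw [Finset.nonempty_iff_ne_empty]
    intro h0
    rw [Finset.sdiff_eq_empty_iff_subset] at h0
    exact hne (Finset.eq_of_subset_of_card_le h0 hcard.ge)
  obtain ⟨a, ha, hmax⟩ := Finset.exists_max_image (A \ B) (rk c d) hne'
  have hpos : 0 < (A \ B).card := Finset.card_pos.mpr hne'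
  have e1 : ∑ x ∈ A \ B, rk c d x ≤ (A \ B).card • rk c d a :=
    Finset.sum_le_card_nsmul _ _ _ hmax
  have e2 : (B \ A).card • (rk c d a + 1) ≤ ∑ y ∈ B \ A, rk c d y := by
    refine Finset.card_nsmul_le_sum _ _ _ ?_
    intro y hy
    rw [Finset.mem_sdiff] at hy ha
    exact h1 a (hA ha.1) y (hB hy.1) (hlt a ha.1 ha.2 y hy.1 hy.2)
  have e3 : wt c d A = ∑ x ∈ A ∩ B, rk c d x + ∑ x ∈ A \ B, rk c d x :=
    (Finset.sum_inter_add_sum_sdiff A B _).symm
  have e4 : wt c d B = ∑ x ∈ A ∩ B, rk c d x + ∑ x ∈ B \ A, rk c d x := by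
    rw [Finset.inter_comm]
    exact (Finset.sum_inter_add_sum_sdiff B A _).symm
  rw [e3, e4]
  rw [← hc] at e2
  simp only [smul_eq_mul] at e1 e2
  nlinarith

end Pool.EGC
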