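import Pool.Agent.H94.EGC.S1

/-!
# EGC, module TR2
-/

set_option autoImplicit false

namespace Pool.EGC

open MvPolynomial Pool.EGH

theorem t_tr2 : TR2Stmt := by
  intro K _ N k r n J hJ
  induction hJ with
  | zero =>
    refine ⟨⊥, MCI.zero, le_rfl, ?_⟩
    intro π hπ hk
    rw [Ideal.map_bot]
    exact MCI.zero
  | @lin k J l hJ hl hr ih =>
    refine ⟨J ⊔ Ideal.span {l}, MCI.lin hJ hl hr, le_rfl, ?_⟩
    intro π hπ hk
    have : Ideal.map π (J ⊔ Ideal.span {l}) = ⊥ := by
      rw [← hk, eq_bot_iff, Ideal.map_le_iff_le_comap]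
      intro x hx
      exact hx
    rw [this]
    exact MCI.zero
  | @quad k r J q hJ hq hr ih =>
    obtain ⟨J₀, h0, h1, h2⟩ := ih
    refine ⟨J₀, h0, h1.trans le_sup_left, ?_⟩
    intro π hπ hk
    have h3 := h2 π hπ hk
    rw [Ideal.map_sup, Ideal.map_span, Set.image_singleton]
    refine MCI.quad h3 (hπ.2 2 q hq) ?_
    intro z hz
    obtain ⟨y, rfl⟩ := hπ.1 z
    have h4 : π (q * y) ∈ J.map π := by
      rw [map_mul]
      exact hz
    have h5 : q * y ∈ J := by
      rw [Ideal.mem_map_iff_of_surjective π hπ.1] at h4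
      obtain ⟨x, hx, hxy⟩ := h4
      have h6 : q * y - x ∈ J₀ := by
        rw [← hk, RingHom.mem_ker, map_sub, hxy, sub_self]
      have := J.add_mem (h1 h6) hx
      rwa [sub_add_cancel] at this
    exact Ideal.mem_map_of_mem π (hr y h5)

end Pool.EGC
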